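import Pool.Agent.Helper19.PU.Defs
import Mathlib.Analysis.InnerProductSpace.Spectrum
import Mathlib.LinearAlgebra.Determinant
import Mathlib.LinearAlgebra.Matrix.SchurComplement

/-!
# Piece PU-6
-/

open MeasureTheory Set Metric Filter Module
open scoped NNReal Topology RealInnerProductSpace ENNReal Real ContDiff Manifold

namespace Pool.Agent.Helper19.PU

variable {E : Type*} [NormedAddCommGroup E] [InnerProductSpace ℝ E]

private lemma p6_det_comm [FiniteDimensional ℝ E] (A B : E →ₗ[ℝ] E) :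
    (1 + A * B).det = (1 + B * A).det := by
  set b := Module.finBasis ℝ E
  rw [← LinearMap.det_toMatrix b (1 + A * B), ← LinearMap.det_toMatrix b (1 + B * A), map_add,
    map_add, LinearMap.toMatrix_mul, LinearMap.toMatrix_mul, LinearMap.toMatrix_one,
    Matrix.det_one_add_mul_comm]

private lemma p6_main [FiniteDimensional ℝ E] (m : ℕ) (S : E →ₗ[ℝ] E) (hS : S.IsSymmetric)
    (K : Submodule ℝ E) (hK : finrank ℝ K = 2 * m) (hKS : ∀ z ∈ K, S z ∈ K)
    (hq : ∀ z, S z - z ∈ K) (C : ℝ) (h0 : ∀ z, 0 ≤ ⟪S z, z⟫) (hC : ∀ z, ⟪S z, z⟫ ≤ C * ‖z‖ ^ 2) :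
    0 ≤ S.det ∧ S.det ≤ C ^ (2 * m) := by
  have he : K ≤ K.comap S := fun z hz => hKS z hz
  have h1 : (K.mapQ K S he) = LinearMap.id := by
    refine Submodule.linearMap_qext _ (LinearMap.ext fun z => ?_)
    rw [LinearMap.comp_apply, LinearMap.comp_apply, Submodule.mkQ_apply, Submodule.mapQ_apply,
      LinearMap.id_apply, Submodule.Quotient.eq]
    exact hq z
  have h2 : S.det = (S.restrict he).det := by
    rw [LinearMap.det_eq_det_mul_det K S he, h1, LinearMap.det_id, mul_one]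
  have h3 : (S.restrict he).IsSymmetric := hS.restrict_invariant hKS
  rw [h2, h3.det_eq_prod_eigenvalues hK]
  have h4 : ∀ i, h3.eigenvalues hK i = ⟪S (h3.eigenvectorBasis hK i : K), (h3.eigenvectorBasis hK i : K)⟫
      := by
    intro i
    have e1 := h3.apply_eigenvectorBasis hK i
    have e2 : S (h3.eigenvectorBasis hK i : K)
        = (h3.eigenvalues hK i) • ((h3.eigenvectorBasis hK i : K) : E) := by
      have := congrArg (Subtype.val) e1
      rwa [LinearMap.coe_restrict_apply] at this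
    rw [e2, real_inner_smul_left, real_inner_self_eq_norm_sq]
    have e3 : ‖((h3.eigenvectorBasis hK i : K) : E)‖ = 1 := by
      rw [Submodule.norm_coe, (h3.eigenvectorBasis hK).norm_eq_one]
    rw [e3]; ring
  have h5 : ∀ i, 0 ≤ h3.eigenvalues hK i := fun i => by rw [h4]; exact h0 _
  have h6 : ∀ i, h3.eigenvalues hK i ≤ C := fun i => by
    rw [h4]
    refine (hC _).trans (le_of_eq ?_)
    rw [Submodule.norm_coe, (h3.eigenvectorBasis hK).norm_eq_one]; ring
  constructor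
  · exact Finset.prod_nonneg fun i _ => by simpa using h5 i
  · calc ∏ i, ((h3.eigenvalues hK i : ℝ) : ℝ) ≤ ∏ _i : Fin (2 * m), C :=
          Finset.prod_le_prod (fun i _ => by simpa using h5 i) (fun i _ => by simpa using h6 i)
      _ = C ^ (2 * m) := by simp

theorem volDens_le [FiniteDimensional ℝ E] (m : ℕ) (hfr : finrank ℝ E = 2 * m + 2)
    (L : E →L[ℝ] E) (x w : E) (hx : ‖x‖ = 1) (hw : ‖w‖ = 1) (hxw : ⟪x, w⟫ = 0)
    (hLx : ∀ δ, ⟪x, L δ⟫ = 0) (hLw : ∀ δ, ⟪w, L δ⟫ = 0) :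
    volDens L ≤ (1 + ‖L‖ ^ 2) ^ m := by
  set S : E →ₗ[ℝ] E := 1 + (L : E →ₗ[ℝ] E) * (L.adjoint : E →ₗ[ℝ] E) with hSdef
  have hSa : ∀ z, S z = z + L (L.adjoint z) := fun z => rfl
  have hdet : (1 + L.adjoint ∘L L).det = S.det := by
    rw [hSdef, ← p6_det_comm]
    rfl
  have hSi : ∀ z y, ⟪S z, y⟫ = ⟪z, y⟫ + ⟪L.adjoint z, L.adjoint y⟫ := by
    intro z y
    rw [hSa, inner_add_left, ContinuousLinearMap.adjoint_inner_right]
  have hsym : S.IsSymmetric := by
    intro z y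
    rw [hSi, real_inner_comm (S y) z, hSi, real_inner_comm y z,
      real_inner_comm (L.adjoint y) (L.adjoint z)]
  set K₀ : Submodule ℝ E := Submodule.span ℝ {x, w} with hK₀
  have hmem : ∀ z, z ∈ K₀ᗮ ↔ ⟪x, z⟫ = 0 ∧ ⟪w, z⟫ = 0 := by
    intro z
    constructor
    · intro h
      rw [Submodule.mem_orthogonal] at h
      exact ⟨h x (Submodule.subset_span (by simp)), h w (Submodule.subset_span (by simp))⟩
    · rintro ⟨h1, h2⟩
      rw [Submodule.mem_orthogonal]
      intro u hu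
      rw [hK₀, Submodule.mem_span_pair] at hu
      obtain ⟨p, q, rfl⟩ := hu
      rw [inner_add_left, real_inner_smul_left, real_inner_smul_left, h1, h2]; ring
  have hfK₀ : finrank ℝ K₀ = 2 := by
    have hli : LinearIndependent ℝ ![x, w] := by
      rw [LinearIndependent.pair_iff]
      intro s t hst
      have e1 : ⟪x, s • x + t • w⟫ = 0 := by rw [hst, inner_zero_right]
      have e2 : ⟪w, s • x + t • w⟫ = 0 := by rw [hst, inner_zero_right]
      rw [inner_add_right, real_inner_smul_right, real_inner_smul_right, hxw,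
        real_inner_self_eq_norm_sq, hx] at e1
      rw [inner_add_right, real_inner_smul_right, real_inner_smul_right, real_inner_comm, hxw,
        real_inner_self_eq_norm_sq, hw] at e2
      constructor <;> linarith
    have := finrank_span_eq_card hli
    rw [Matrix.range_cons, Matrix.range_cons, Matrix.range_empty, union_empty,
      Fintype.card_fin] at this
    exact this
  have hfK : finrank ℝ K₀ᗮ = 2 * m := by
    have := Submodule.finrank_add_finrank_orthogonal K₀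
    omega
  have hT0 : ∀ z, S z - z ∈ K₀ᗮ := by
    intro z
    rw [hmem, hSa, add_sub_cancel_left]
    exact ⟨hLx _, hLw _⟩
  obtain ⟨h0, h1⟩ := p6_main m S hsym K₀ᗮ hfK
    (fun z hz => by
      have := Submodule.add_mem _ (hT0 z) hz
      simpa using this)
    hT0 (1 + ‖L‖ ^ 2)
    (fun z => by
      rw [hSi]
      exact add_nonneg real_inner_self_nonneg real_inner_self_nonneg)
    (fun z => by
      rw [hSi, real_inner_self_eq_norm_sq, real_inner_self_eq_norm_sq]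
      have e : ‖L.adjoint z‖ ≤ ‖L‖ * ‖z‖ := by
        refine (L.adjoint.le_opNorm z).trans (le_of_eq ?_)
        rw [LinearIsometryEquiv.norm_map]
      have e2 := pow_le_pow_left₀ (norm_nonneg _) e 2
      nlinarith [e2])
  rw [volDens, hdet]
  calc √(S.det) ≤ √((1 + ‖L‖ ^ 2) ^ (2 * m)) := Real.sqrt_le_sqrt h1
    _ = (1 + ‖L‖ ^ 2) ^ m := by
      rw [mul_comm 2 m, pow_mul, Real.sqrt_sq (by positivity)]

private lemma p6_skew {J : E →L[ℝ] E} (hJ : CS J) (x y : E) : ⟪J x, y⟫ = -⟪x, J y⟫ := by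
  have h := hJ.inner (x + y)
  rw [map_add, inner_add_left, inner_add_right, inner_add_right, hJ.inner x, hJ.inner y] at h
  rw [real_inner_comm y (J x)]
  linarith

private lemma p6_map {J : E →L[ℝ] E} (hJ : CS J) (x y : E) : ⟪J x, J y⟫ = ⟪x, y⟫ := by
  have h := hJ.norm (x + y)
  have h2 : ‖J x + J y‖ ^ 2 = ‖x + y‖ ^ 2 := by rw [← map_add, h]
  rw [norm_add_sq_real, norm_add_sq_real, hJ.norm, hJ.norm] at h2
  linarith

private lemma p6_Dm_pos {a x : E} {μ : ℝ} (ha : ‖a‖ = 1) (hx : ‖x‖ = 1) (hμ : μ ≠ 0 ∨ x ≠ -a) :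
    0 < Dm a μ x := by
  have h1 : |⟪a, x⟫| ≤ 1 := by
    have := abs_real_inner_le_norm a x
    rwa [ha, hx, one_mul] at this
  obtain ⟨h2, h3⟩ := abs_le.1 h1
  unfold Dm
  rcases eq_or_lt_of_le (show (0 : ℝ) ≤ 1 + ⟪a, x⟫ by linarith) with h | h
  · have hxa : x = -a := by
      have e : ‖x + a‖ ^ 2 = 0 := by
        rw [norm_add_sq_real, ha, hx, real_inner_comm]; linarith
      have := norm_eq_zero.1 (pow_eq_zero_iff two_ne_zero |>.1 e)
      exact eq_neg_of_add_eq_zero_left this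
    rcases hμ with hμ | hμ
    · have : 0 < μ ^ 2 := by positivity
      have h4 : (1 : ℝ) - ⟪a, x⟫ = 2 := by linarith
      rw [h4]; linarith
    · exact absurd hxa hμ
  · have : 0 ≤ μ ^ 2 * (1 - ⟪a, x⟫) := mul_nonneg (sq_nonneg _) (by linarith)
    linarith

/-- the derivative of a field of constant length is orthogonal to it. -/
theorem inner_Wm_Tm {J : E →L[ℝ] E} (hJ : CS J) {a x : E} {μ : ℝ} (ha : ‖a‖ = 1) (hx : ‖x‖ = 1)
    (hμ : μ ≠ 0 ∨ x ≠ -a) (δ : E) : ⟪Wm J a μ x, Tm J a μ x δ⟫ = 0 := by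
  have hD := (p6_Dm_pos ha hx hμ).ne'
  set e : E := pr x δ with he
  have hxe : ⟪x, e⟫ = 0 := by
    rw [he, pr, _root_.sub_apply, ContinuousLinearMap.id_apply, ContinuousLinearMap.smulRight_apply,
      innerSL_apply_apply, inner_sub_right, real_inner_smul_right, real_inner_self_eq_norm_sq, hx]
    ring
  have haa : ⟪a, a⟫ = 1 := by rw [real_inner_self_eq_norm_sq, ha]; ring
  have hxx : ⟪x, x⟫ = 1 := by rw [real_inner_self_eq_norm_sq, hx]; ring
  have hxa : ⟪x, a⟫ = ⟪a, x⟫ := real_inner_comm _ _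
  have hbb : ⟪J a, J a⟫ = 1 := by rw [p6_map hJ, haa]
  have hba : ⟪J a, a⟫ = 0 := by rw [real_inner_comm, hJ.inner]
  have hab : ⟪a, J a⟫ = 0 := hJ.inner a
  have hxb : ⟪x, J a⟫ = ⟪J a, x⟫ := real_inner_comm _ _
  have hJxb : ⟪J x, J a⟫ = ⟪a, x⟫ := by rw [p6_map hJ, hxa]
  have hbJx : ⟪J a, J x⟫ = ⟪a, x⟫ := by rw [p6_map hJ]
  have hJxa : ⟪J x, a⟫ = -⟪J a, x⟫ := by rw [p6_skew hJ, hxb]
  have haJx : ⟪a, J x⟫ = -⟪J a, x⟫ := by rw [real_inner_comm, hJxa]
  have hJxx : ⟪J x, x⟫ = 0 := by rw [real_inner_comm, hJ.inner]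
  have hxJx : ⟪x, J x⟫ = 0 := hJ.inner x
  have hJJx : ⟪J x, J x⟫ = 1 := by rw [p6_map hJ, hxx]
  have hbJe : ⟪J a, J e⟫ = ⟪a, e⟫ := p6_map hJ _ _
  have hJxJe : ⟪J x, J e⟫ = 0 := by rw [p6_map hJ, hxe]
  have haJe : ⟪a, J e⟫ = -⟪J a, e⟫ := by rw [p6_skew hJ, neg_neg]
  have hxJe : ⟪x, J e⟫ = -⟪J x, e⟫ := by rw [p6_skew hJ, neg_neg]
  have hNx : ⟪x, Nm J a μ x⟫ = 0 := by
    simp only [Nm, inner_add_right, inner_sub_right, real_inner_smul_right, hxx, hxa, hxb, hxJx]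
    ring
  have hNN : ⟪Nm J a μ x, Nm J a μ x⟫ = Dm a μ x ^ 2 := by
    simp only [Nm, Dm, inner_add_right, inner_sub_right, real_inner_smul_right, inner_add_left,
      inner_sub_left, real_inner_smul_left, hxx, hxa, hxb, hxJx, haa, hbb, hba, hab, hJxb, hbJx,
      hJxa, haJx, hJxx, hJJx]
    ring
  have hdN : dN J a μ x e = ((1 - μ) ^ 2 * ⟪a, e⟫) • J a + (2 * μ) • J e
      - ((1 - μ) * ⟪J a, e⟫) • ((1 - μ) • a + (1 + μ) • x)
      - ((1 - μ) * ⟪J a, x⟫ * (1 + μ)) • e := rfl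
  have hNdN : ⟪Nm J a μ x, dN J a μ x e⟫ = (1 - μ ^ 2) * ⟪a, e⟫ * Dm a μ x := by
    rw [hdN]
    simp only [Nm, Dm, inner_add_right, inner_sub_right, real_inner_smul_right, inner_add_left,
      inner_sub_left, real_inner_smul_left, hxx, hxa, hxb, hxJx, haa, hbb, hba, hab, hJxb, hbJx,
      hJxa, haJx, hJxx, hJJx, hbJe, hJxJe, haJe, hxJe, hxe]
    ring
  have hdW : dW J a μ x e = (Dm a μ x)⁻¹ • dN J a μ x e
      - (((Dm a μ x ^ 2)⁻¹ * (1 - μ ^ 2)) * ⟪a, e⟫) • Nm J a μ x := by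
    rw [dW, _root_.sub_apply, _root_.smul_apply, _root_.smul_apply,
      ContinuousLinearMap.smulRight_apply, innerSL_apply_apply, smul_smul]
  have hT : Tm J a μ x δ = dW J a μ x e - ⟪x, dW J a μ x e⟫ • x := rfl
  have hWx : ⟪Wm J a μ x, x⟫ = 0 := by
    rw [Wm, real_inner_smul_left, real_inner_comm, hNx, mul_zero]
  rw [hT, inner_sub_right, real_inner_smul_right, hWx, mul_zero, sub_zero, hdW, Wm,
    real_inner_smul_left, inner_sub_right, real_inner_smul_right, real_inner_smul_right, hNdN, hNN]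
  field_simp
  ring

end Pool.Agent.Helper19.PU
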